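import Pool.Agent.Work.MP_223b32_es.Interface

/-!
# MIN: minimal multiplicative relations
-/

namespace Pool.Agent.Work.ES

open Finset Polynomial Module Pool.Agent.Work.MP_223b32_ag Pool.Agent.Work.TC
open Pool.Agent.Work.TL (AA Om Stmt_FA)

namespace MIN

theorem sum_par {ι : Type} (v : ι → ℤ) (T : Finset ι) (h : ∀ i ∈ T, Odd (v i)) :
    Even (∑ i ∈ T, v i) ↔ Even T.card := by
  classical
  induction T using Finset.induction_on with
  | empty => simp
  | insert a s ha ih =>
    have h1 := ih fun i hi => h i (mem_insert_of_mem hi)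
    have h2 : ¬ Even (v a) := Int.not_even_iff_odd.2 (h a (mem_insert_self a s))
    rw [sum_insert ha, card_insert_of_notMem ha, Int.even_add, Nat.even_add_one, h1]
    tauto

/-- combinatorial core -/
theorem comb {ι : Type} [Fintype ι] (T : Finset ι) (g : Equiv.Perm ι)
    (hg : ∀ i, i ∈ T ↔ g i ∈ T) (htr : ∀ i ∈ T, ∀ j ∈ T, ∃ t : ℕ, (g ^ t) i = j)
    (hodd : Odd T.card) (M : (ι → ℤ) → Prop)
    (hadd : ∀ v w, M v → M w → M (v + w)) (hsub : ∀ v w, M v → M w → M (v - w))
    (hperm : ∀ v, M v → M (v ∘ g.symm)) (htwo : ∀ v, M (2 • v) → M v)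
    (hpar : ∀ v, M v → (∀ i, i ∉ T → v i = 0) →
      (∀ i ∈ T, Even (v i)) ∨ (∀ i ∈ T, Odd (v i)))
    (hex : ∃ v, M v ∧ (∀ i, i ∉ T → v i = 0) ∧ v ≠ 0) :
    ∃ (c : ℤ) (v : ι → ℤ), c ≠ 0 ∧ M v ∧ (∀ i, i ∉ T → v i = 0) ∧ ∀ i ∈ T, v i = c := by
  classical
  -- minimal relation
  let Q : ℕ → Prop := fun m => ∃ v, M v ∧ (∀ i, i ∉ T → v i = 0) ∧ v ≠ 0 ∧
    ∑ i, (v i).natAbs = m
  have hQ : ∃ m, Q m := by
    obtain ⟨v, h1, h2, h3⟩ := hex
    exact ⟨_, v, h1, h2, h3, rfl⟩
  obtain ⟨v, hv1, hv2, hv3, hv4⟩ := Nat.find_spec hQ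
  have hmin : ∀ w, M w → (∀ i, i ∉ T → w i = 0) → w ≠ 0 →
      ∑ i, (v i).natAbs ≤ ∑ i, (w i).natAbs := by
    intro w h1 h2 h3
    rw [hv4]
    exact Nat.find_min' hQ ⟨w, h1, h2, h3, rfl⟩
  have hpos : ∀ w : ι → ℤ, w ≠ 0 → 0 < ∑ i, (w i).natAbs := by
    intro w hw
    obtain ⟨i, hi⟩ := Function.ne_iff.1 hw
    exact (Int.natAbs_pos.2 hi).trans_le
      (single_le_sum (f := fun i => (w i).natAbs) (fun _ _ => Nat.zero_le _) (mem_univ i))
  have hoddv : ∀ i ∈ T, Odd (v i) := by
    rcases hpar v hv1 hv2 with h | h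
    · exfalso
      have h' : ∀ i, Even (v i) := by
        intro i
        by_cases hi : i ∈ T
        · exact h i hi
        · rw [hv2 i hi]; exact Even.zero
      choose w hw using h'
      have hvw : v = 2 • w := by
        funext i
        rw [hw i]
        simp only [Pi.smul_apply, nsmul_eq_mul]
        push_cast
        ring
      have hw1 : M w := htwo w (hvw ▸ hv1)
      have hw2 : ∀ i, i ∉ T → w i = 0 := by
        intro i hi
        have h1 := hv2 i hi
        rw [hw i] at h1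
        omega
      have hw3 : w ≠ 0 := by
        rintro rfl
        exact hv3 (by rw [hvw]; simp)
      have h1 := hmin w hw1 hw2 hw3
      have h2 : ∑ i, (v i).natAbs = 2 * ∑ i, (w i).natAbs := by
        rw [mul_sum]
        refine sum_congr rfl fun i _ => ?_
        rw [hw i]
        omega
      have h3 := hpos w hw3
      omega
    · exact h
  have hgs : ∀ i, i ∈ T ↔ g.symm i ∈ T := by
    intro i
    rw [hg (g.symm i), Equiv.apply_symm_apply]
  set v' : ι → ℤ := v ∘ g.symm with hv'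
  have hM' : M v' := hperm v hv1
  have hoff' : ∀ i, i ∉ T → v' i = 0 := by
    intro i hi
    exact hv2 _ (fun h => hi ((hgs i).2 h))
  have hodd' : ∀ i ∈ T, Odd (v' i) := fun i hi => hoddv _ ((hgs i).1 hi)
  have hsum' : ∑ i, (v' i).natAbs = ∑ i, (v i).natAbs :=
    Equiv.sum_comp g.symm (fun i => (v i).natAbs)
  have hsumZ : ∑ i, v' i = ∑ i, v i := Equiv.sum_comp g.symm v
  have hab : ∀ i, ∃ a : ℤ, v i + v' i = 2 * a := by
    intro i
    by_cases hi : i ∈ T
    · obtain ⟨x, hx⟩ := hoddv i hi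
      obtain ⟨y, hy⟩ := hodd' i hi
      exact ⟨x + y + 1, by rw [hx, hy]; ring⟩
    · exact ⟨0, by rw [hv2 i hi, hoff' i hi]; ring⟩
  choose a ha using hab
  set b : ι → ℤ := fun i => v i - a i with hb
  have hb2 : ∀ i, v i - v' i = 2 * b i := by
    intro i
    have h1 := ha i
    rw [hb]
    simp only
    linarith
  have ha1 : M a := by
    apply htwo
    have h1 : 2 • a = v + v' := by
      funext i
      simp only [Pi.smul_apply, nsmul_eq_mul, Pi.add_apply]
      push_cast
      rw [ha i]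
    rw [h1]
    exact hadd v v' hv1 hM'
  have hb1 : M b := by
    apply htwo
    have h1 : 2 • b = v - v' := by
      funext i
      simp only [Pi.smul_apply, nsmul_eq_mul, Pi.sub_apply]
      push_cast
      rw [hb2 i]
    rw [h1]
    exact hsub v v' hv1 hM'
  have haoff : ∀ i, i ∉ T → a i = 0 := by
    intro i hi
    have h1 := ha i
    rw [hv2 i hi, hoff' i hi] at h1
    omega
  have hboff : ∀ i, i ∉ T → b i = 0 := by
    intro i hi
    have h1 := hb2 i
    rw [hv2 i hi, hoff' i hi] at h1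
    omega
  obtain ⟨i0, hi0⟩ : T.Nonempty := card_pos.1 hodd.pos
  have hlt : ∑ i, (a i).natAbs + ∑ i, (b i).natAbs < 2 * ∑ i, (v i).natAbs := by
    have h1 : 2 * ∑ i, (v i).natAbs = ∑ i, ((v i).natAbs + (v' i).natAbs) := by
      rw [sum_add_distrib, hsum']
      ring
    rw [h1, ← sum_add_distrib]
    refine sum_lt_sum ?_ ⟨i0, mem_univ _, ?_⟩
    · intro i _
      have h2 := ha i
      have h3 := hb2 i
      omega
    · have h2 := ha i0
      have h3 := hb2 i0
      obtain ⟨x, hx⟩ := hoddv i0 hi0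
      obtain ⟨y, hy⟩ := hodd' i0 hi0
      omega
  have hor : a = 0 ∨ b = 0 := by
    by_contra hno
    push Not at hno
    have h1 := hmin a ha1 haoff hno.1
    have h2 := hmin b hb1 hboff hno.2
    omega
  have hb0 : b = 0 := by
    rcases hor with h | h
    · exfalso
      have h1 : ∑ i, v' i = -∑ i, v i := by
        rw [← sum_neg_distrib]
        refine sum_congr rfl fun i _ => ?_
        have h2 := ha i
        rw [h, Pi.zero_apply] at h2
        linarith
      rw [hsumZ] at h1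
      have h3 : ∑ i, v i = 0 := by omega
      have h4 : ∑ i, v i = ∑ i ∈ T, v i := by
        symm
        exact sum_subset (subset_univ T) fun i _ hi => hv2 i hi
      rw [h4] at h3
      have h5 : Odd (∑ i ∈ T, v i) := by
        rw [← Int.not_even_iff_odd, sum_par v T hoddv, Nat.not_even_iff_odd]
        exact hodd
      rw [h3] at h5
      exact absurd h5 (by decide)
    · exact h
  have hfix : ∀ i, v (g i) = v i := by
    intro i
    have h1 := hb2 (g i)
    rw [hb0] at h1
    simp only [Pi.zero_apply, mul_zero] at h1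
    have h2 : v' (g i) = v i := by
      rw [hv']
      simp
    rw [h2] at h1
    linarith
  have hfixt : ∀ (t : ℕ) i, v ((g ^ t) i) = v i := by
    intro t
    induction t with
    | zero => intro i; rfl
    | succ t ih =>
      intro i
      rw [pow_succ, Equiv.Perm.mul_apply, ih, hfix]
  refine ⟨v i0, v, ?_, hv1, hv2, ?_⟩
  · intro h
    have h1 := hoddv i0 hi0
    rw [h] at h1
    exact absurd h1 (by decide)
  · intro i hi
    obtain ⟨t, ht⟩ := htr i0 hi0 i hi
    rw [← ht, hfixt]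

section Rel

variable {ι : Type} [Fintype ι]

/-- multiplicative relation up to roots of unity -/
def Rl (α' : ι → AA) (q : ℕ) (v : ι → ℤ) : Prop :=
  ∃ N : ℕ, 0 < N ∧ (∏ i, ((α' i : ℂ) / q) ^ v i) ^ N = 1

theorem rl_perm (α' : ι → AA) (q : ℕ) (θ : AA ≃+* AA) (g : Equiv.Perm ι)
    (h : ∀ i, θ (α' i) = α' (g i)) (v : ι → ℤ) (hv : Rl α' q v) : Rl α' q (v ∘ g.symm) := by
  obtain ⟨N, hN, hrel⟩ := hv
  refine ⟨N, hN, ?_⟩
  have hinj : Function.Injective (algebraMap AA ℂ) := Subtype.val_injective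
  let j : FractionRing AA →+* ℂ := IsFractionRing.lift hinj
  let Θ : FractionRing AA ≃+* FractionRing AA := IsFractionRing.ringEquivOfRingEquiv θ
  let a : ι → FractionRing AA := fun i => algebraMap AA (FractionRing AA) (α' i) / q
  have hj : ∀ i, j (a i) = (α' i : ℂ) / q := by
    intro i
    have h1 : j (algebraMap AA (FractionRing AA) (α' i)) = (α' i : ℂ) :=
      IsFractionRing.lift_algebraMap hinj (α' i)
    rw [map_div₀, map_natCast, h1]
  have hjp : ∀ w : ι → ℤ, j (∏ i, a i ^ w i) = ∏ i, ((α' i : ℂ) / q) ^ w i := by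
    intro w
    rw [map_prod]
    exact prod_congr rfl fun i _ => by rw [map_zpow₀, hj]
  have h1 : (∏ i, a i ^ v i) ^ N = 1 := by
    apply j.injective
    rw [map_pow, map_one, hjp, hrel]
  have hΘ : ∀ i, Θ (a i) = a (g i) := by
    intro i
    have h2 : Θ (algebraMap AA (FractionRing AA) (α' i)) =
        algebraMap AA (FractionRing AA) (θ (α' i)) :=
      IsFractionRing.ringEquivOfRingEquiv_algebraMap θ (α' i)
    have h3 : Θ (a i) = Θ (algebraMap AA (FractionRing AA) (α' i)) / Θ (q : FractionRing AA) :=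
      map_div₀ Θ _ _
    rw [h3, h2, h, map_natCast]
  have h2 := congrArg Θ h1
  rw [map_pow, map_prod, map_one] at h2
  have h3 : ∏ i, Θ (a i ^ v i) = ∏ i, a i ^ (v ∘ g.symm) i := by
    rw [← Equiv.prod_comp g (fun i => a i ^ (v ∘ g.symm) i)]
    refine prod_congr rfl fun i _ => ?_
    rw [map_zpow₀, hΘ]
    simp
  rw [h3] at h2
  rw [← hjp, ← map_pow, h2, map_one]

theorem rl_add {α' : ι → AA} {q : ℕ} (h0 : ∀ i, (α' i : ℂ) / q ≠ 0) {v w : ι → ℤ}
    (hv : Rl α' q v) (hw : Rl α' q w) : Rl α' q (v + w) := by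
  obtain ⟨N, hN, h1⟩ := hv
  obtain ⟨N', hN', h2⟩ := hw
  refine ⟨N * N', Nat.mul_pos hN hN', ?_⟩
  have h3 : ∏ i, ((α' i : ℂ) / q) ^ (v + w) i =
      (∏ i, ((α' i : ℂ) / q) ^ v i) * ∏ i, ((α' i : ℂ) / q) ^ w i := by
    rw [← prod_mul_distrib]
    exact prod_congr rfl fun i _ => by rw [Pi.add_apply, zpow_add₀ (h0 i)]
  rw [h3, mul_pow, pow_mul, h1, one_pow, one_mul, mul_comm N N', pow_mul, h2, one_pow]

theorem rl_neg {α' : ι → AA} {q : ℕ} {v : ι → ℤ}
    (hv : Rl α' q v) : Rl α' q (-v) := by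
  obtain ⟨N, hN, h1⟩ := hv
  refine ⟨N, hN, ?_⟩
  have h3 : ∏ i, ((α' i : ℂ) / q) ^ (-v) i = (∏ i, ((α' i : ℂ) / q) ^ v i)⁻¹ := by
    rw [← prod_inv_distrib]
    exact prod_congr rfl fun i _ => by rw [Pi.neg_apply, zpow_neg]
  rw [h3, inv_pow, h1, inv_one]

theorem rl_two {α' : ι → AA} {q : ℕ} {v : ι → ℤ} (hv : Rl α' q (2 • v)) : Rl α' q v := by
  obtain ⟨N, hN, h1⟩ := hv
  refine ⟨2 * N, by omega, ?_⟩
  have h3 : ∏ i, ((α' i : ℂ) / q) ^ (2 • v) i = (∏ i, ((α' i : ℂ) / q) ^ v i) ^ 2 := by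
    rw [← prod_pow]
    refine prod_congr rfl fun i _ => ?_
    have h4 : (2 • v) i = v i * 2 := by
      simp only [Pi.smul_apply, nsmul_eq_mul]
      push_cast
      ring
    rw [h4, zpow_mul]
    norm_cast
  rw [pow_mul, ← h3, h1]

end Rel

theorem cube {G : Type} [Field G] {y z : G} (hy : y ^ 3 = 1) (hy1 : y ≠ 1) (hz : z ^ 3 = 1)
    (hz1 : z ≠ 1) : y = z ∨ y = z⁻¹ := by
  have h1 : y ^ 2 + y + 1 = 0 := by
    have h : (y - 1) * (y ^ 2 + y + 1) = 0 := by linear_combination hy
    exact (mul_eq_zero.1 h).resolve_left (sub_ne_zero.2 hy1)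
  have h2 : z ^ 2 + z + 1 = 0 := by
    have h : (z - 1) * (z ^ 2 + z + 1) = 0 := by linear_combination hz
    exact (mul_eq_zero.1 h).resolve_left (sub_ne_zero.2 hz1)
  have hz0 : z ≠ 0 := by
    rintro rfl
    simp at hz
  have h3 : z⁻¹ = z ^ 2 := by
    rw [inv_eq_iff_eq_inv, eq_comm, inv_eq_of_mul_eq_one_left]
    linear_combination hz
  have h4 : (y - z) * (y - z ^ 2) = 0 := by linear_combination h1 + hz - y * h2
  rcases mul_eq_zero.1 h4 with h | h
  · exact Or.inl (sub_eq_zero.1 h)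
  · rw [h3]
    exact Or.inr (sub_eq_zero.1 h)

theorem pow4 {G : Type} [Monoid G] {y : G} (hy : y ^ 3 = 1) (t : ℕ) : y ^ 4 ^ t = y := by
  induction t with
  | zero => simp
  | succ t ih =>
    rw [pow_succ, pow_mul, ih, show 4 = 3 + 1 from rfl, pow_succ, hy, one_mul]

end MIN

open MIN in
theorem stmt_MIN (hVEC : Stmt_VEC) (hMODU : Stmt_MODU) (hORB2 : Stmt_ORB2) : Stmt_MIN := by
  classical
  intro ρ σ hσ k q hk hq α' v Z S hv hρv hS hxS hinj hsurj hZsym hpair hτ hcomp s hs M hM hrel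
  by_cases hp : ∃ i j t, s = i ::ₘ j ::ₘ t ∧ α' i * α' j = (q : AA) ^ 2
  · exact Or.inl hp
  right
  have hn0 : 0 < 3 ^ k := by positivity
  have hq0 : (q : ℂ) ≠ 0 := by
    have := hq.pos
    exact_mod_cast this.ne'
  -- the reductions
  obtain ⟨x, hx⟩ : ∃ x : Fin (2 * 3 ^ k) → Om, ∀ i, x i = ρ (α' i) := ⟨_, fun i => rfl⟩
  have hxinj : ∀ i j, x i = x j → i = j := by
    intro i j h
    rw [hx, hx] at h
    exact hinj h
  have hx3 : ∀ i, x i ^ 3 ^ (k + 1) = 1 := by
    intro i
    rw [hx]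
    exact ((hS _).1 (hxS i)).1
  have hx4 : ∀ i, x i ^ 3 ^ k ≠ 1 := by
    intro i
    rw [hx]
    exact ((hS _).1 (hxS i)).2
  obtain ⟨y, hy⟩ : ∃ y : Fin (2 * 3 ^ k) → Om, ∀ i, y i = x i ^ 3 ^ k := ⟨_, fun i => rfl⟩
  have hy3 : ∀ i, y i ^ 3 = 1 := by
    intro i
    rw [hy, ← pow_mul, ← pow_succ, hx3]
  have hy1 : ∀ i, y i ≠ 1 := by
    intro i
    rw [hy]
    exact hx4 i
  -- the partner
  have hpt' : ∀ i, ∃ j, x j = (x i)⁻¹ := by
    intro i
    have h1 : (x i)⁻¹ ∈ S := by
      rw [hS, inv_pow, inv_pow, hx3, inv_one]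
      refine ⟨rfl, fun h => hx4 i ?_⟩
      rwa [inv_eq_one] at h
    obtain ⟨j, hj⟩ := hsurj _ h1
    exact ⟨j, by rw [hx j, hj]⟩
  choose pt hpt using hpt'
  have hptpt : ∀ i, pt (pt i) = i := by
    intro i
    apply hxinj
    rw [hpt, hpt, inv_inv]
  have hypt : ∀ i, y (pt i) = (y i)⁻¹ := by
    intro i
    rw [hy, hy, hpt, inv_pow]
  have hyinv : ∀ i, (y i)⁻¹ ≠ y i := by
    intro i h
    have h0 : y i ≠ 0 := by
      intro h0
      have h1 := hy3 i
      rw [h0] at h1
      simp at h1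
    have h1 : y i * y i = 1 := by
      nth_rewrite 1 [← h]
      exact inv_mul_cancel₀ h0
    have h2 := hy3 i
    have h3 : y i ^ 3 = y i := by
      rw [pow_succ, pow_two, h1, one_mul]
    rw [h3] at h2
    exact hy1 i h2
  have hprod : ∀ i, α' i * α' (pt i) = (q : AA) ^ 2 := by
    intro i
    rw [hpair, ← hx, ← hx]
    exact hpt i
  obtain ⟨u, hu⟩ : ∃ u : Fin (2 * 3 ^ k) → ℂ, ∀ i, u i = (α' i : ℂ) / q := ⟨_, fun i => rfl⟩
  have hupt : ∀ i, u i * u (pt i) = 1 := by
    intro i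
    have h1 := congrArg (algebraMap AA ℂ) (hprod i)
    rw [map_mul, map_pow, map_natCast] at h1
    have h2 : (α' i : ℂ) * (α' (pt i) : ℂ) = (q : ℂ) ^ 2 := h1
    rw [hu, hu]
    field_simp
    exact h2
  have hu0 : ∀ i, u i ≠ 0 := fun i h => by
    have h1 := hupt i
    rw [h, zero_mul] at h1
    exact zero_ne_one h1
  have hu0' : ∀ i, (α' i : ℂ) / q ≠ 0 := fun i => by rw [← hu]; exact hu0 i
  have huinv : ∀ i, u (pt i) = (u i)⁻¹ := fun i => (eq_inv_of_mul_eq_one_right (hupt i))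
  -- the set `T`
  obtain ⟨i0, hi0⟩ := Multiset.exists_mem_of_ne_zero hs
  obtain ⟨T, hT⟩ : ∃ T : Finset (Fin (2 * 3 ^ k)), T = univ.filter (fun i => y i = y i0) :=
    ⟨_, rfl⟩
  have hmemT : ∀ i, i ∈ T ↔ y i = y i0 := by
    intro i
    rw [hT, mem_filter]
    simp
  have hi0T : i0 ∈ T := (hmemT i0).2 rfl
  have hdich : ∀ i, y i = y i0 ∨ y i = (y i0)⁻¹ := fun i =>
    cube (hy3 i) (hy1 i) (hy3 i0) (hy1 i0)
  have hnT : ∀ i, i ∉ T ↔ pt i ∈ T := by
    intro i
    rw [hmemT, hmemT, hypt]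
    constructor
    · intro h
      rw [(hdich i).resolve_left h, inv_inv]
    · intro h h2
      rw [h2] at h
      exact hyinv i0 h
  have hTc : ∀ f : Fin (2 * 3 ^ k) → ℂ, ∏ j ∈ univ.filter (fun j => j ∉ T), f j =
      ∏ i ∈ T, f (pt i) := by
    intro f
    refine prod_nbij' pt pt ?_ ?_ ?_ ?_ ?_
    · intro j hj
      exact (hnT j).1 (mem_filter.1 hj).2
    · intro i hi
      rw [mem_filter]
      refine ⟨mem_univ _, ?_⟩
      rw [hnT, hptpt]
      exact hi
    · intro j _; exact hptpt j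
    · intro j _; exact hptpt j
    · intro j _; rw [hptpt]
  have hcard : T.card = 3 ^ k := by
    have h1 : (univ.filter (fun j => j ∉ T)).card = T.card := by
      refine card_nbij' pt pt ?_ ?_ ?_ ?_
      · intro j hj
        exact (hnT j).1 (mem_filter.1 hj).2
      · intro i hi
        rw [mem_coe, mem_filter]
        refine ⟨mem_univ _, ?_⟩
        rw [hnT, hptpt]
        exact hi
      · intro j _; exact hptpt j
      · intro j _; exact hptpt j
    have h2 := card_filter_add_card_filter_not (s := (univ : Finset (Fin (2 * 3 ^ k))))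
      (fun j => j ∈ T)
    have h3 : univ.filter (fun j => j ∈ T) = T := by
      ext j
      simp
    rw [h3, h1] at h2
    simp only [card_univ, Fintype.card_fin] at h2
    omega
  have hoddT : Odd T.card := by
    rw [hcard]
    exact (by decide : Odd 3).pow
  -- the permutation
  have hgf' : ∀ i, ∃ j, σ (σ (α' i)) = α' j := fun i => hτ (σ.trans σ) i
  choose gf hgf using hgf'
  have hxgf : ∀ i, x (gf i) = x i ^ 4 := by
    intro i
    rw [hx, hx, ← hgf, hσ, hσ, ← pow_mul]
  have hgfinj : Function.Injective gf := by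
    intro i j hij
    apply hxinj
    have h1 : σ (σ (α' i)) = σ (σ (α' j)) := by rw [hgf, hgf, hij]
    rw [hx, hx, σ.injective (σ.injective h1)]
  let g : Equiv.Perm (Fin (2 * 3 ^ k)) :=
    Equiv.ofBijective gf (Finite.injective_iff_bijective.1 hgfinj)
  have hg : ∀ i, g i = gf i := fun i => rfl
  have hyg : ∀ i, y (g i) = y i := by
    intro i
    rw [hg, hy, hxgf, ← pow_mul, mul_comm, pow_mul, ← hy]
    have h1 := pow4 (hy3 i) 1
    simpa using h1
  have hxgt : ∀ (t : ℕ) i, x ((g ^ t) i) = x i ^ 4 ^ t := by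
    intro t
    induction t with
    | zero => intro i; simp
    | succ t ih =>
      intro i
      rw [pow_succ, Equiv.Perm.mul_apply, ih, hg, hxgf, ← pow_mul, pow_succ, mul_comm 4]
  have htr : ∀ i ∈ T, ∀ j ∈ T, ∃ t : ℕ, (g ^ t) i = j := by
    intro i hi j hj
    obtain ⟨-, h2, -⟩ := hORB2 k (x i) (hx3 i) (hx4 i)
    obtain ⟨e, -, he⟩ := (h2 (x j)).1 ⟨hx3 j, hx4 j⟩
    have h3 : y j = y i ^ 2 ^ e := by
      rw [hy, hy, he, ← pow_mul, ← pow_mul, mul_comm]
    rw [(hmemT j).1 hj, (hmemT i).1 hi] at h3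
    rcases Nat.even_or_odd' e with ⟨t, ht | ht⟩
    · refine ⟨t, ?_⟩
      apply hxinj
      rw [hxgt, he, ht, pow_mul]
      norm_num
    · exfalso
      rw [ht, pow_succ, pow_mul, pow_mul] at h3
      have h4 : (2 : ℕ) ^ 2 = 4 := by norm_num
      rw [h4, pow4 (hy3 i0)] at h3
      have h0 : y i0 ≠ 0 := by
        intro h0
        have h1 := hy3 i0
        rw [h0] at h1
        simp at h1
      have h5 : y i0 = 1 := by
        have h6 : y i0 * (y i0 - 1) = 0 := by linear_combination -h3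
        exact sub_eq_zero.1 ((mul_eq_zero.1 h6).resolve_left h0)
      exact hy1 i0 h5
  -- parity
  have hpar : ∀ w, Rl α' q w → (∀ i, i ∉ T → w i = 0) →
      (∀ i ∈ T, Even (w i)) ∨ (∀ i ∈ T, Odd (w i)) := by
    rintro w ⟨N, hN, hw⟩ hoff
    have h := hVEC ρ (3 ^ k) q hq hn0 (Fin (2 * 3 ^ k)) α' v hv w N hN hw
    obtain ⟨J, hJ⟩ : ∃ J : Finset (Fin (2 * 3 ^ k)), J = univ.filter (fun i => Odd (w i)) :=
      ⟨_, rfl⟩
    rw [← hJ] at h
    have hmemJ : ∀ i, i ∈ J ↔ Odd (w i) := by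
      intro i
      rw [hJ, mem_filter]
      simp
    have hJT : J ⊆ T := by
      intro i hi
      by_contra hiT
      rw [hmemJ, hoff i hiT] at hi
      exact absurd hi (by decide)
    rcases J.eq_empty_or_nonempty with hJe | hJn
    · left
      intro i _
      rw [← Int.not_odd_iff_even, ← hmemJ, hJe]
      exact notMem_empty i
    · right
      have hIS : J.image x ⊆ S := by
        intro z hz
        obtain ⟨i, -, rfl⟩ := mem_image.1 hz
        rw [hx]
        exact hxS i
      have hIinv : ∀ z ∈ J.image x, z⁻¹ ∉ J.image x := by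
        intro z hz hz2
        obtain ⟨i, hi, rfl⟩ := mem_image.1 hz
        obtain ⟨j, hj, hji⟩ := mem_image.1 hz2
        have h1 : j = pt i := by
          apply hxinj
          rw [hji, hpt]
        have h2 : pt i ∉ T := by
          rw [hnT, hptpt]
          exact hJT hi
        exact h2 (h1 ▸ hJT hj)
      have hsumI : ∑ z ∈ J.image x, aeval z Z = ∑ i ∈ J, ρ (v i) := by
        rw [sum_image (fun a _ b _ hab => hxinj a b hab)]
        exact sum_congr rfl fun i _ => by rw [hρv, hx]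
      have hcardI : (J.image x).card = J.card :=
        card_image_of_injOn (fun a _ b _ hab => hxinj a b hab)
      have hge : 3 ^ k ≤ J.card := by
        by_contra hlt
        push Not at hlt
        obtain ⟨i, h1, h2, h3⟩ := hMODU k S hS Z hZsym (J.image x) hIS (hJn.image x) hIinv
          (by rw [hsumI]; exact h) 1 le_rfl hk (by rw [hcardI, Nat.add_sub_cancel]; exact hlt)
        obtain ⟨r, h4, h5, h6⟩ := hcomp i h1 h2
        exact h6 (h3 r h4 h5)
      have hJeq : J = T := eq_of_subset_of_card_le hJT (by rw [hcard]; exact hge)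
      intro i hi
      rw [← hmemJ, hJeq]
      exact hi
  -- the relation given by `s`
  have hrel0 : (∏ i, u i ^ s.count i) ^ M = 1 := by
    have h1 : ∏ i, u i ^ s.count i = (s.map u).prod := by
      rw [Finset.prod_multiset_map_count]
      symm
      refine prod_subset (subset_univ _) fun i _ hi => ?_
      rw [Multiset.mem_toFinset] at hi
      rw [Multiset.count_eq_zero_of_notMem hi, pow_zero]
    have h2 : (s.map u).prod = (s.map fun i => (α' i : ℂ)).prod / (q : ℂ) ^ s.card := by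
      have h3 : s.map u = s.map (fun i => (α' i : ℂ) / q) := by
        congr 1
        funext i
        exact hu i
      rw [h3, Multiset.prod_map_div, Multiset.map_const', Multiset.prod_replicate]
    rw [h1, h2, div_pow, hrel, div_self]
    exact pow_ne_zero _ (pow_ne_zero _ hq0)
  have hex : ∃ w, Rl α' q w ∧ (∀ i, i ∉ T → w i = 0) ∧ w ≠ 0 := by
    refine ⟨fun i => if i ∈ T then (s.count i : ℤ) - s.count (pt i) else 0, ⟨M, hM, ?_⟩, ?_, ?_⟩
    · have h1 : ∏ i, ((α' i : ℂ) / q) ^ (if i ∈ T then (s.count i : ℤ) - s.count (pt i) else 0) =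
          ∏ i, u i ^ s.count i := by
        have h2 : ∀ i, ((α' i : ℂ) / q) ^
            (if i ∈ T then (s.count i : ℤ) - s.count (pt i) else 0) =
            if i ∈ T then u i ^ s.count i * u (pt i) ^ s.count (pt i) else 1 := by
          intro i
          split_ifs
          · rw [← hu, zpow_sub₀ (hu0 i), huinv, inv_pow, div_eq_mul_inv]
            simp
          · simp
        rw [prod_congr rfl (fun i _ => h2 i), prod_ite_mem, univ_inter, prod_mul_distrib,
          ← hTc (fun j => u j ^ s.count j)]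
        have h3 := prod_filter_mul_prod_filter_not (univ : Finset (Fin (2 * 3 ^ k)))
          (fun j => j ∈ T) (fun j => u j ^ s.count j)
        rw [← h3]
        congr 1
        refine prod_congr ?_ fun _ _ => rfl
        ext j
        simp
      rw [h1]
      exact hrel0
    · intro i hi
      exact if_neg hi
    · intro h0
      have h1 := congrFun h0 i0
      simp only [if_pos hi0T, Pi.zero_apply] at h1
      have h2 : 0 < s.count i0 := Multiset.count_pos.2 hi0
      have h3 : 0 < s.count (pt i0) := by omega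
      obtain ⟨t1, ht1⟩ := Multiset.exists_cons_of_mem hi0
      have h4 : pt i0 ∈ s := Multiset.count_pos.1 h3
      have h5 : pt i0 ≠ i0 := by
        intro h6
        have h7 : i0 ∉ T := by
          rw [hnT, h6]
          exact hi0T
        exact h7 hi0T
      rw [ht1, Multiset.mem_cons] at h4
      obtain ⟨t2, ht2⟩ := Multiset.exists_cons_of_mem (h4.resolve_left h5)
      exact hp ⟨i0, pt i0, t2, by rw [ht1, ht2], hprod i0⟩
  obtain ⟨c, w, hc, ⟨N, hN, hw⟩, hwoff, hwT⟩ := comb T g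
    (fun i => by rw [hmemT, hmemT, hyg]) htr hoddT (Rl α' q)
    (fun v w hv hw => rl_add hu0' hv hw)
    (fun v w hv hw => by rw [sub_eq_add_neg]; exact rl_add hu0' hv (rl_neg hw))
    (fun w hw => rl_perm α' q (σ.trans σ) g (fun i => hgf i) w hw)
    (fun w hw => rl_two hw) hpar hex
  -- conclusion
  obtain ⟨A, hA⟩ : ∃ A : ℂ, A = ∏ i ∈ T, u i := ⟨_, rfl⟩
  have hwA : ∏ i, ((α' i : ℂ) / q) ^ w i = A ^ c := by
    rw [hA, ← prod_zpow]
    symm
    rw [← prod_subset (subset_univ T)]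
    · exact prod_congr rfl fun i hi => by rw [hwT i hi, hu]
    · intro i _ hi
      rw [hwoff i hi, zpow_zero]
  rw [hwA] at hw
  have hAN : A ^ (c.natAbs * N) = 1 := by
    rcases Int.natAbs_eq c with h | h
    · rw [h, zpow_natCast, ← pow_mul] at hw
      exact hw
    · rw [h, zpow_neg, zpow_natCast, inv_pow, ← pow_mul, inv_eq_one] at hw
      exact hw
  refine ⟨c.natAbs * N, Nat.mul_pos (Int.natAbs_pos.2 hc) hN, fun ϖ hϖ hϖ1 => ?_⟩
  rcases cube hϖ hϖ1 (hy3 i0) (hy1 i0) with h | h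
  · have h1 : univ.filter (fun i => ρ (α' i) ^ 3 ^ k = ϖ) = T := by
      ext i
      rw [mem_filter, hmemT, hy, hx, h]
      simp
    have h2 : ∏ i ∈ univ.filter (fun i => ρ (α' i) ^ 3 ^ k = ϖ), ((α' i : ℂ) / q) = A := by
      rw [h1, hA]
      exact prod_congr rfl fun i _ => (hu i).symm
    rw [h2]
    exact hAN
  · have h1 : univ.filter (fun i => ρ (α' i) ^ 3 ^ k = ϖ) = univ.filter (fun j => j ∉ T) := by
      ext i
      rw [mem_filter, mem_filter, hmemT, ← hx, ← hy, h]
      simp only [mem_univ, true_and]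
      constructor
      · intro h3 h4
        rw [h3] at h4
        exact hyinv i0 h4
      · intro h3
        exact (hdich i).resolve_left h3
    have h2 : ∏ i ∈ univ.filter (fun i => ρ (α' i) ^ 3 ^ k = ϖ), ((α' i : ℂ) / q) = A⁻¹ := by
      rw [h1, hA, ← prod_inv_distrib]
      have h3 := hTc u
      rw [prod_congr rfl (fun i _ => (hu i).symm), h3]
      exact prod_congr rfl fun i _ => huinv i
    rw [h2, inv_pow, hAN, inv_one]

end Pool.Agent.Work.ES
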