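import Pool.Agent.Work.MP_223b32_es.Interface

/-!
# RED4: the reduction of the eigenvalues from the power sums modulo `4`
-/

namespace Pool.Agent.Work.ES

open Finset Polynomial Module Pool.Agent.Work.MP_223b32_ag Pool.Agent.Work.TC
open Pool.Agent.Work.TL (AA Om Stmt_FA)

namespace RED4

/-- the exponents of the primitive part -/
def Ex (n : ℕ) : Finset ℕ := (range (3 * n)).filter fun k => ¬ 3 ∣ k

theorem card_Ex (n : ℕ) : (Ex n).card = 2 * n := by
  have h1 := card_filter_add_card_filter_not (s := range (3 * n)) (fun k => 3 ∣ k)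
  have h2 : ((range (3 * n)).filter (fun k => 3 ∣ k)).card = n := by
    have h3 : (range (3 * n)).filter (fun k => 3 ∣ k) = (range n).image (fun j => 3 * j) := by
      ext k
      simp only [mem_filter, mem_range, mem_image]
      constructor
      · rintro ⟨hk, j, rfl⟩
        exact ⟨j, by omega, rfl⟩
      · rintro ⟨j, hj, rfl⟩
        exact ⟨by omega, dvd_mul_right 3 j⟩
    rw [h3, card_image_of_injective _ (fun a b (hab : 3 * a = 3 * b) => by omega), card_range]
  rw [h2, card_range] at h1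
  unfold Ex
  omega

theorem sum_Ex {G : Type} [AddCommGroup G] (n : ℕ) (g : ℕ → G) :
    ∑ k ∈ Ex n, g k = ∑ k ∈ range (3 * n), g k - ∑ j ∈ range n, g (3 * j) := by
  have h1 := sum_filter_add_sum_filter_not (range (3 * n)) (fun k => 3 ∣ k) g
  have h2 : ∑ k ∈ (range (3 * n)).filter (fun k => 3 ∣ k), g k = ∑ j ∈ range n, g (3 * j) := by
    symm
    refine sum_nbij (fun j => 3 * j) ?_ ?_ ?_ ?_
    · intro j hj
      simp only [mem_filter, mem_range] at hj ⊢
      exact ⟨by omega, dvd_mul_right 3 j⟩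
    · intro a _ b _ (hab : 3 * a = 3 * b)
      omega
    · intro k hk
      rw [mem_coe, mem_filter, mem_range] at hk
      obtain ⟨hk, j, rfl⟩ := hk
      exact ⟨j, by rw [mem_coe, mem_range]; omega, rfl⟩
    · intro j _; rfl
  rw [← h1, h2]
  unfold Ex
  abel

section G

variable {G : Type} [Field G]

/-- the sum of the powers of a root of unity -/
theorem geo {N : ℕ} {ζ : G} (h : ζ ^ N = 1) (r : ℕ) (P : Prop) [Decidable P]
    (hP : ζ ^ r = 1 ↔ P) : ∑ k ∈ range N, (ζ ^ k) ^ r = if P then (N : G) else 0 := by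
  have h1 : ∀ k ∈ range N, (ζ ^ k) ^ r = (ζ ^ r) ^ k := fun k _ => by
    rw [← pow_mul, ← pow_mul, mul_comm]
  rw [sum_congr rfl h1]
  split_ifs with h2
  · rw [← hP] at h2
    simp [h2]
  · rw [← hP] at h2
    have h3 : ζ ^ r - 1 ≠ 0 := sub_ne_zero.2 h2
    have h4 := mul_geom_sum (ζ ^ r) N
    have h5 : (ζ ^ r) ^ N = 1 := by rw [← pow_mul, mul_comm, pow_mul, h, one_pow]
    rw [h5, sub_self] at h4
    exact (mul_eq_zero.1 h4).resolve_left h3

theorem pow_sum {n : ℕ} (hn : 0 < n) {ζ : G} (hζ : IsPrimitiveRoot ζ (3 * n)) (r : ℕ) :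
    ∑ k ∈ Ex n, (ζ ^ k) ^ r = (cr n r : G) := by
  rw [sum_Ex n (fun k => (ζ ^ k) ^ r)]
  have h3 : IsPrimitiveRoot (ζ ^ 3) n := hζ.pow (by omega) rfl
  have h1 := geo hζ.pow_eq_one r (3 * n ∣ r) (hζ.pow_eq_one_iff_dvd r)
  have h2 := geo h3.pow_eq_one r (n ∣ r) (h3.pow_eq_one_iff_dvd r)
  have h4 : ∑ j ∈ range n, (ζ ^ (3 * j)) ^ r = ∑ k ∈ range n, ((ζ ^ 3) ^ k) ^ r :=
    sum_congr rfl fun j _ => by rw [pow_mul ζ 3 j]
  rw [h1, h4, h2]
  unfold cr
  by_cases ha : 3 * n ∣ r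
  · have hb : n ∣ r := (dvd_mul_left n 3).trans ha
    rw [if_pos ha, if_pos hb, if_pos ha]
    push_cast
    ring
  · by_cases hb : n ∣ r
    · rw [if_neg ha, if_pos hb, if_neg ha, if_pos hb]
      push_cast
      ring
    · rw [if_neg ha, if_neg hb, if_neg ha, if_neg hb]
      simp

/-- the values are the primitive part of the group of roots of unity -/
theorem bij {n : ℕ} (hn : 0 < n) {ζ : G} (hζ : IsPrimitiveRoot ζ (3 * n))
    (x : Fin (2 * n) → G) (hx : ∀ r, 1 ≤ r → ∑ i, x i ^ r = (cr n r : G)) :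
    (∀ i, ∃ k ∈ Ex n, x i = ζ ^ k) ∧ Function.Injective x := by
  classical
  have hlin : ∀ f : G[X], f.coeff 0 = 0 → ∑ i, f.eval (x i) = ∑ k ∈ Ex n, f.eval (ζ ^ k) := by
    intro f hf
    simp only [eval_eq_sum_range]
    rw [sum_comm, sum_comm (s := Ex n)]
    refine sum_congr rfl fun r _ => ?_
    rw [← mul_sum, ← mul_sum]
    rcases Nat.eq_zero_or_pos r with rfl | hr
    · rw [hf, zero_mul, zero_mul]
    · rw [hx r hr, pow_sum hn hζ]
  have hinjE : Set.InjOn (fun k => ζ ^ k) (Ex n : Set ℕ) := by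
    intro a ha b hb hab
    rw [mem_coe, Ex, mem_filter, mem_range] at ha hb
    exact hζ.pow_inj ha.1 hb.1 hab
  have hζ0 : ζ ≠ 0 := hζ.ne_zero (by omega)
  have hit : ∀ k ∈ Ex n, ∃ i, x i = ζ ^ k := by
    intro k hk
    by_contra hno
    have hno' : ∀ i, x i ≠ ζ ^ k := fun i hi => hno ⟨i, hi⟩
    set T : Finset G := ((univ.image x) ∪ (Ex n).image (fun k => ζ ^ k)).erase (ζ ^ k) with hT
    have h := hlin (X * ∏ t ∈ T, (X - C t)) (by simp)
    have hl : ∑ i, (X * ∏ t ∈ T, (X - C t)).eval (x i) = 0 := by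
      refine sum_eq_zero fun i _ => ?_
      have hm : x i ∈ T := by
        rw [hT, mem_erase]
        exact ⟨hno' i, mem_union_left _ (mem_image_of_mem x (mem_univ i))⟩
      rw [eval_mul, eval_prod, prod_eq_zero hm (by simp), mul_zero]
    have hr : ∑ k' ∈ Ex n, (X * ∏ t ∈ T, (X - C t)).eval (ζ ^ k') =
        (X * ∏ t ∈ T, (X - C t)).eval (ζ ^ k) := by
      refine sum_eq_single_of_mem k hk fun k' hk' hne => ?_
      have hm : ζ ^ k' ∈ T := by
        rw [hT, mem_erase]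
        exact ⟨fun he => hne (hinjE hk' hk he), mem_union_right _ (mem_image_of_mem _ hk')⟩
      rw [eval_mul, eval_prod, prod_eq_zero hm (by simp), mul_zero]
    rw [hl, hr, eval_mul, eval_prod, eval_X] at h
    have h2 : ∏ t ∈ T, (X - C t).eval (ζ ^ k) ≠ 0 := by
      rw [prod_ne_zero_iff]
      intro t ht
      rw [eval_sub, eval_X, eval_C, sub_ne_zero]
      rintro rfl
      exact (mem_erase.1 ht).1 rfl
    exact mul_ne_zero (pow_ne_zero k hζ0) h2 h.symm
  have hsub : (Ex n).image (fun k => ζ ^ k) ⊆ univ.image x := by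
    intro y hy
    obtain ⟨k, hk, rfl⟩ := mem_image.1 hy
    obtain ⟨i, hi⟩ := hit k hk
    exact mem_image.2 ⟨i, mem_univ i, hi⟩
  have hc1 : ((Ex n).image (fun k => ζ ^ k)).card = 2 * n := by
    rw [card_image_of_injOn hinjE, card_Ex]
  have hc2 : (univ.image x).card ≤ 2 * n := by
    refine card_image_le.trans ?_
    simp
  have heq := eq_of_subset_of_card_le hsub (by rw [hc1]; exact hc2)
  constructor
  · intro i
    have hi : x i ∈ univ.image x := mem_image_of_mem x (mem_univ i)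
    rw [← heq] at hi
    obtain ⟨k, hk, he⟩ := mem_image.1 hi
    exact ⟨k, hk, he.symm⟩
  · have hc3 : (univ.image x).card = (univ : Finset (Fin (2 * n))).card := by
      rw [← heq, hc1]
      simp
    have h := card_image_iff.1 hc3
    intro a b hab
    exact h (mem_coe.2 (mem_univ a)) (mem_coe.2 (mem_univ b)) hab

theorem poly {n : ℕ} (hn : 0 < n) (x : Fin (2 * n) → G) (hinj : Function.Injective x)
    (h1 : ∀ i, x i ^ (3 * n) = 1) (h2 : ∀ i, x i ^ n ≠ 1) :
    ∏ i, (X - C (x i)) = X ^ (2 * n) + (X ^ n + C (1 : G)) := by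
  have hdeg : (X ^ n + C (1 : G)).degree < ((2 * n : ℕ) : WithBot ℕ) := by
    rw [degree_X_pow_add_C hn]
    exact_mod_cast (by omega : n < 2 * n)
  have hm : (X ^ (2 * n) + (X ^ n + C (1 : G))).Monic := monic_X_pow_add hdeg
  have hd : (∏ i, (X - C (x i))) ∣ X ^ (2 * n) + (X ^ n + C (1 : G)) := by
    refine Finset.prod_dvd_of_coprime ?_ ?_
    · exact fun a _ b _ hab => pairwise_coprime_X_sub_C hinj hab
    · intro i _
      rw [dvd_iff_isRoot, IsRoot.def]
      simp only [eval_add, eval_pow, eval_X, eval_C]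
      have h3 : (x i ^ n - 1) * (x i ^ (2 * n) + (x i ^ n + 1)) = 0 := by
        have h4 := h1 i
        have e1 : x i ^ (3 * n) = (x i ^ n) ^ 3 := by rw [← pow_mul, mul_comm]
        have e2 : x i ^ (2 * n) = (x i ^ n) ^ 2 := by rw [← pow_mul, mul_comm]
        rw [e1] at h4
        rw [e2]
        linear_combination h4
      exact (mul_eq_zero.1 h3).resolve_left (sub_ne_zero.2 (h2 i))
  have hmp : (∏ i, (X - C (x i))).Monic := monic_prod_of_monic _ _ fun i _ => monic_X_sub_C _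
  refine (eq_of_monic_of_dvd_of_natDegree_le hmp hm hd ?_).symm
  have hdeg2 : (X ^ n + C (1 : G)).degree < (X ^ (2 * n) : G[X]).degree := by
    rw [degree_X_pow]
    exact hdeg
  rw [natDegree_add_eq_left_of_degree_lt hdeg2, natDegree_X_pow,
    natDegree_finset_prod_X_sub_C_eq_card]
  simp

end G

theorem pow_four {A : Type} [CommRing A] (w : A) (m : ℕ) :
    ∃ y, (1 + 2 * w) ^ m = 1 + 2 * m * w + 4 * y := by
  induction m with
  | zero => exact ⟨0, by simp⟩
  | succ m ih =>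
    obtain ⟨y, hy⟩ := ih
    refine ⟨y + m * w ^ 2 + 2 * w * y, ?_⟩
    rw [pow_succ, hy]
    push_cast
    ring

theorem core {A G : Type} [CommRing A] [Field G] [CharP G 2] [Algebra (ZMod 2) G] (ι : A →+* ℂ)
    (hι : Function.Injective ι) (ρ : A →+* G) (n q : ℕ) (hn : Odd n) (hq : Odd q) (ζ : G)
    (hζ : IsPrimitiveRoot ζ (3 * n)) (α : Fin (2 * n) → ℂ) (P : ℤ[X])
    (hP : P.map (Int.castRingHom ℂ) = ∏ i, (X - C (α i)))
    (N : ℕ → ℤ) (e : ℕ → ℕ) (hN : ∀ r, 1 ≤ r → (N r : ℂ) = ∑ i, α i ^ r)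
    (h2 : ∀ r, 1 ≤ r → N r ≡ cr n r [ZMOD 2])
    (h4 : ∀ r, 1 ≤ r → Even r → N r ≡ cr n r [ZMOD 4])
    (he : ∀ r, Odd r → ¬ n ∣ r → N r ≡ 2 * e r [ZMOD 4])
    (α' : Fin (2 * n) → A) (hα' : ∀ i, ι (α' i) = α i) :
    ∃ (w : Fin (2 * n) → A) (Z : (ZMod 2)[X]),
      (∀ i, α' i ^ (3 * n) = 1 + 2 * w i) ∧ (∀ i, ρ (w i) = aeval (ρ (α' i)) Z) ∧
      (∀ i, ρ (α' i) ^ (3 * n) = 1 ∧ ρ (α' i) ^ n ≠ 1) ∧
      (Function.Injective fun i => ρ (α' i)) ∧
      ∀ r, Odd r → ¬ n ∣ r → ∑ i, ρ (α' i) ^ r * ρ (w i) = (e r : G) := by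
  have hn0 : 0 < n := hn.pos
  have h2G : (2 : G) = 0 := CharTwo.two_eq_zero
  -- the polynomial over `A`
  have hPA : P.map (Int.castRingHom A) = ∏ i, (X - C (α' i)) := by
    apply Polynomial.map_injective ι hι
    rw [Polynomial.map_prod, Polynomial.map_map]
    have h1 : ∀ i, (X - C (α' i)).map ι = X - C (α i) := by
      intro i
      rw [Polynomial.map_sub, map_X, Polynomial.map_C, hα']
    rw [prod_congr rfl (fun i _ => h1 i), ← hP]
    congr 1
    exact RingHom.ext_int _ _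
  have hPG : P.map (Int.castRingHom G) = ∏ i, (X - C (ρ (α' i))) := by
    have h1 := congrArg (Polynomial.map ρ) hPA
    rw [Polynomial.map_prod, Polynomial.map_map] at h1
    have h3 : ∀ i, (X - C (α' i)).map ρ = X - C (ρ (α' i)) := by
      intro i
      rw [Polynomial.map_sub, map_X, Polynomial.map_C]
    rw [prod_congr rfl (fun i _ => h3 i)] at h1
    rw [← h1]
    congr 1
    exact RingHom.ext_int _ _
  -- power sums
  have hNA : ∀ r, 1 ≤ r → ((N r : ℤ) : A) = ∑ i, α' i ^ r := by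
    intro r hr
    apply hι
    rw [map_intCast, hN r hr, map_sum]
    exact sum_congr rfl fun i _ => by rw [map_pow, hα']
  have hNG : ∀ r, 1 ≤ r → ∑ i, ρ (α' i) ^ r = (cr n r : G) := by
    intro r hr
    have h1 := congrArg ρ (hNA r hr)
    rw [map_intCast, map_sum] at h1
    have h3 : ((N r : ℤ) : G) = ((cr n r : ℤ) : G) := by
      have h5 : ((N r - cr n r : ℤ) : G) = 0 := by
        rw [CharP.intCast_eq_zero_iff G 2]
        exact (Int.modEq_iff_dvd.1 (h2 r hr).symm)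
      rw [Int.cast_sub, sub_eq_zero] at h5
      exact h5
    rw [← h3, h1]
    exact sum_congr rfl fun i _ => by rw [map_pow]
  obtain ⟨hbij, hinj⟩ := bij hn0 hζ (fun i => ρ (α' i)) hNG
  have hx1 : ∀ i, ρ (α' i) ^ (3 * n) = 1 := by
    intro i
    obtain ⟨k, -, hk'⟩ := hbij i
    have hk : ρ (α' i) = ζ ^ k := hk'
    rw [hk, ← pow_mul, mul_comm k, pow_mul, hζ.pow_eq_one, one_pow]
  have hx2 : ∀ i, ρ (α' i) ^ n ≠ 1 := by
    intro i hi
    obtain ⟨k, hkE, hk'⟩ := hbij i
    have hk : ρ (α' i) = ζ ^ k := hk'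
    rw [hk, ← pow_mul, hζ.pow_eq_one_iff_dvd] at hi
    rw [Ex, mem_filter] at hkE
    exact hkE.2 (Nat.dvd_of_mul_dvd_mul_right hn0 hi)
  -- the polynomial modulo `2`
  have hΦ := poly hn0 (fun i => ρ (α' i)) hinj hx1 hx2
  rw [← hPG] at hΦ
  obtain ⟨R, hR⟩ : C (2 : ℤ) ∣ P - (X ^ (2 * n) + (X ^ n + C 1)) := by
    rw [C_dvd_iff_dvd_coeff]
    intro m
    have h5 : (P - (X ^ (2 * n) + (X ^ n + C 1))).map (Int.castRingHom G) = 0 := by
      rw [Polynomial.map_sub, hΦ]
      simp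
    have h6 := congrArg (fun f => f.coeff m) h5
    simp only [coeff_map, coeff_zero] at h6
    have h7 : ((P - (X ^ (2 * n) + (X ^ n + C 1))).coeff m : G) = 0 := h6
    rw [CharP.intCast_eq_zero_iff G 2] at h7
    exact h7
  have hroot : ∀ i, aeval (α' i) P = 0 := by
    intro i
    have h5 := congrArg (Polynomial.eval (α' i)) hPA
    rw [eval_prod, prod_eq_zero (mem_univ i) (by rw [eval_sub, eval_X, eval_C, sub_self]),
      eval_map] at h5
    exact h5
  have hroot2 : ∀ i, α' i ^ (2 * n) + (α' i ^ n + 1) + 2 * aeval (α' i) R = 0 := by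
    intro i
    have h5 : P = (X ^ (2 * n) + (X ^ n + C 1)) + C 2 * R := by rw [← hR]; ring
    have h6 := hroot i
    have h7 : aeval (α' i) (C (2 : ℤ)) = (2 : A) := by
      rw [aeval_C]
      exact map_ofNat _ 2
    rw [h5, C_1, map_add, map_add, map_add, map_mul, h7, map_pow, map_pow, aeval_X, map_one] at h6
    exact h6
  refine ⟨fun i => -((α' i ^ n - 1) * aeval (α' i) R),
    (X ^ n + 1) * R.map (Int.castRingHom (ZMod 2)), ?_, ?_, fun i => ⟨hx1 i, hx2 i⟩, hinj, ?_⟩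
  · intro i
    have e1 : α' i ^ (3 * n) = (α' i ^ n) ^ 3 := by rw [← pow_mul, mul_comm]
    have e2 : α' i ^ (2 * n) = (α' i ^ n) ^ 2 := by rw [← pow_mul, mul_comm]
    have h6 := hroot2 i
    rw [e2] at h6
    rw [e1]
    linear_combination (α' i ^ n - 1) * h6
  · intro i
    have h6 : ρ (aeval (α' i) R) = aeval (ρ (α' i)) (R.map (Int.castRingHom (ZMod 2))) := by
      rw [aeval_def, aeval_def, eval₂_map, Polynomial.hom_eval₂]
      congr 1
      exact RingHom.ext_int _ _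
    rw [map_neg, map_mul, map_sub, map_pow, map_one, h6, map_mul, map_add, map_pow, aeval_X,
      map_one, CharTwo.neg_eq, CharTwo.sub_eq_add]
  · intro r hr hnr
    set w : Fin (2 * n) → A := fun i => -((α' i ^ n - 1) * aeval (α' i) R) with hw
    have hpow : ∀ i, α' i ^ (3 * n) = 1 + 2 * w i := by
      intro i
      have e1 : α' i ^ (3 * n) = (α' i ^ n) ^ 3 := by rw [← pow_mul, mul_comm]
      have e2 : α' i ^ (2 * n) = (α' i ^ n) ^ 2 := by rw [← pow_mul, mul_comm]
      have h6 := hroot2 i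
      rw [e2] at h6
      rw [e1, hw]
      linear_combination (α' i ^ n - 1) * h6
    have h3n : Odd (3 * n) := (by decide : Odd 3).mul hn
    have hcop : Nat.Coprime 2 (3 * n) := Nat.coprime_two_left.2 h3n
    set L := Nat.totient (3 * n) with hL
    have hLpos : 0 < L := Nat.totient_pos.2 (by omega)
    have hmod : 2 ^ L ≡ 1 [MOD 3 * n] := Nat.ModEq.pow_totient hcop
    have h1L : 1 ≤ 2 ^ L := Nat.one_le_two_pow
    obtain ⟨u, hu⟩ := (Nat.modEq_iff_dvd' h1L).1 hmod.symm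
    have h2L : 2 ^ L = 1 + 3 * n * u := by omega
    have hev : Even (2 ^ L) := (Nat.even_pow.2 ⟨even_two, hLpos.ne'⟩)
    have huodd : Odd u := by
      by_contra hu2
      rw [Nat.not_odd_iff_even] at hu2
      have h5 : Even (3 * n * u) := hu2.mul_left _
      rw [h2L] at hev
      rw [Nat.even_add] at hev
      exact absurd (hev.2 h5) (by decide)
    obtain ⟨l, hl⟩ := huodd.mul hr
    have hexp : r * 2 ^ L = r + 3 * n * (u * r) := by rw [h2L]; ring
    have hterm : ∀ i, ∃ y, α' i ^ (r * 2 ^ L) = α' i ^ r + 2 * (α' i ^ r * w i) + 4 * y := by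
      intro i
      obtain ⟨y, hy⟩ := pow_four (w i) (u * r)
      refine ⟨α' i ^ r * (l * w i + y), ?_⟩
      rw [hexp, pow_add, pow_mul, hpow i, hy, hl]
      push_cast
      ring
    choose y hy using hterm
    have hr1 : 1 ≤ r := hr.pos
    have hr2 : 1 ≤ r * 2 ^ L := Nat.mul_pos hr1 (by positivity)
    have hS : ((N (r * 2 ^ L) : ℤ) : A) = ((N r : ℤ) : A) + 2 * ∑ i, α' i ^ r * w i +
        4 * ∑ i, y i := by
      rw [hNA _ hr2, hNA _ hr1, mul_sum, mul_sum, ← sum_add_distrib, ← sum_add_distrib]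
      exact sum_congr rfl fun i _ => hy i
    have hcr : cr n (r * 2 ^ L) = 0 := by
      have hnd : ¬ n ∣ r * 2 ^ L := by
        intro hd
        have hc : Nat.Coprime n (2 ^ L) := (Nat.coprime_two_right.2 hn).pow_right L
        exact hnr (hc.dvd_of_dvd_mul_right hd)
      unfold cr
      rw [if_neg (fun hd => hnd ((dvd_mul_left n 3).trans hd)), if_neg hnd]
    have hN4 := h4 _ hr2 (hev.mul_left r)
    rw [hcr] at hN4
    obtain ⟨c, hc⟩ := (Int.modEq_iff_dvd.1 hN4)
    obtain ⟨d, hd⟩ := (Int.modEq_iff_dvd.1 (he r hr hnr))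
    have hc' : N (r * 2 ^ L) = -(4 * c) := by linarith
    have hd' : N r = 2 * e r - 4 * d := by linarith
    rw [hc', hd'] at hS
    push_cast at hS
    have h2A : ∀ a : A, 2 * a = 0 → a = 0 := by
      intro a ha
      apply hι
      have h5 := congrArg ι ha
      rw [map_mul, map_ofNat, map_zero] at h5
      rw [map_zero]
      exact (mul_eq_zero.1 h5).resolve_left two_ne_zero
    have hS2 := h2A ((e r : A) + ∑ i, α' i ^ r * w i - 2 * ((d : A) - (c : A) - ∑ i, y i)) (by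
      linear_combination -hS)
    have hS3 := congrArg ρ hS2
    rw [map_sub, map_add, map_mul, map_ofNat, h2G, zero_mul, sub_zero, map_natCast, map_sum,
      map_zero] at hS3
    have hS4 : ∑ i, ρ (α' i ^ r * w i) = ∑ i, ρ (α' i) ^ r * ρ (w i) :=
      sum_congr rfl fun i _ => by rw [map_mul, map_pow]
    rw [hS4] at hS3
    have h6 : ∑ i, ρ (α' i) ^ r * ρ (w i) = -(e r : G) := by linear_combination hS3
    rw [h6, CharTwo.neg_eq]

end RED4

open RED4 in
theorem stmt_RED4 : Stmt_RED4 := by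
  intro ρ n q hn hq α P hP _ N e hN h2 h4 he
  have hint : ∀ i, IsIntegral ℤ (α i) := by
    intro i
    refine ⟨P, ?_, ?_⟩
    · apply Polynomial.monic_of_injective (RingHom.injective_int (Int.castRingHom ℂ))
      rw [hP]
      exact monic_prod_of_monic _ _ (fun j _ => monic_X_sub_C _)
    · have : algebraMap ℤ ℂ = Int.castRingHom ℂ := rfl
      rw [this, ← eval_map, hP, eval_prod]
      exact prod_eq_zero (mem_univ i) (by simp)
  have h3n : Odd (3 * n) := (by decide : Odd 3).mul hn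
  have hne : ((3 * n : ℕ) : Om) ≠ 0 := by
    rw [Ne, CharP.cast_eq_zero_iff Om 2]
    intro hd
    obtain ⟨m, hm⟩ := h3n
    omega
  have : NeZero ((3 * n : ℕ) : Om) := ⟨hne⟩
  obtain ⟨ζ, hζ⟩ := HasEnoughRootsOfUnity.exists_primitiveRoot Om (3 * n)
  obtain ⟨w, Z, a1, a2, a3, a4, a5⟩ := core (algebraMap AA ℂ)
    Subtype.val_injective ρ n q hn hq ζ hζ α P hP N e hN h2 h4 he
    (fun i => ⟨α i, hint i⟩) (fun i => rfl)
  exact ⟨fun i => ⟨α i, hint i⟩, w, Z, fun i => rfl, a1, a2, a3, a4, a5⟩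

end Pool.Agent.Work.ES
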